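import Pool.Agent.J4H3.EQ.Stm

/-! Project EQ, piece TAU: the upper bound for the number of all zeros. -/

set_option autoImplicit false

namespace Pool.Agent.J4H8.EQ

open Complex Filter Topology Set
open Pool.Agent.J4H4.NG (S_GRO)
open Pool.Agent.J4H3.EQ
open Pool.Agent.J4H2.DN (Hd)

theorem fin_zeros {f : ℂ → ℂ} (hf : Differentiable ℂ f) (hne : ∃ z, f z ≠ 0) (R : ℝ) :
    {z | f z = 0 ∧ ‖z‖ ≤ R}.Finite := by
  have han : AnalyticOnNhd ℂ f Set.univ := fun z _ => hf.analyticAt z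
  by_contra hinf
  have hinf : {z | f z = 0 ∧ ‖z‖ ≤ R}.Infinite := hinf
  obtain ⟨x, -, hx⟩ := hinf.exists_accPt_of_subset_isCompact (isCompact_closedBall (0 : ℂ) R)
    (fun z hz => by simpa using hz.2)
  rw [accPt_iff_frequently_nhdsNE] at hx
  have h := han.eqOn_zero_of_preconnected_of_frequently_eq_zero isPreconnected_univ (mem_univ x)
    (hx.mono fun z hz => hz.1)
  obtain ⟨z, hz⟩ := hne
  exact hz (h (mem_univ z))

/-- counting the levels -/
theorem lev {q x R : ℝ} (hq : 1 < q) (hx : 0 < x) (k : ℕ) :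
    ∑ j ∈ Finset.range k, (if x ≤ R / q ^ (j + 1) then Real.log q else 0) ≤ Real.posLog (R / x) := by
  have hq0 : 0 < q := by linarith
  induction k with
  | zero => simpa using Real.posLog_nonneg
  | succ k ih =>
    rw [Finset.sum_range_succ]
    by_cases h : x ≤ R / q ^ (k + 1)
    · rw [if_pos h]
      have h1 : ∑ j ∈ Finset.range k, (if x ≤ R / q ^ (j + 1) then Real.log q else 0) ≤ k * Real.log q := by
        refine (Finset.sum_le_sum fun j _ => (?_ : _ ≤ Real.log q)).trans (by simp)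
        split_ifs
        · exact le_rfl
        · exact (Real.log_pos hq).le
      have h2 : ((k : ℝ) + 1) * Real.log q ≤ Real.log (R / x) := by
        have e : ((k : ℝ) + 1) * Real.log q = Real.log (q ^ (k + 1)) := by
          rw [Real.log_pow]; push_cast; ring
        rw [e]
        apply Real.log_le_log (by positivity)
        rw [le_div_iff₀ hx]
        rw [le_div_iff₀ (by positivity)] at h
        linarith
      have h3 : Real.log (R / x) ≤ Real.posLog (R / x) := le_max_right _ _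
      linarith
    · rw [if_neg h, add_zero]; exact ih

/-- the geometric sum -/
theorem geo {q : ℝ} (hq : 1 < q) (k : ℕ) :
    (∑ j ∈ Finset.range k, 1 / q ^ (j + 1)) * (q - 1) = 1 - 1 / q ^ k := by
  have hq0 : 0 < q := by linarith
  induction k with
  | zero => simp
  | succ k ih =>
    rw [Finset.sum_range_succ, add_mul, ih]
    have : q ^ k ≠ 0 := by positivity
    field_simp
    ring

theorem low_bound {f : ℂ → ℂ} {c : ℝ} (hc1 : c ≤ 1) (hd : Differentiable ℂ f) (h0 : f 0 ≠ 0)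
    (hlow : ∀ ε : ℝ, 0 < ε → ∃ R₀ : ℝ, 2 ≤ R₀ ∧ ∀ R : ℝ, R₀ ≤ R → ∃ S : Finset ℂ, (∀ z ∈ S, f z = 0 ∧ ‖z‖ ≤ R) ∧
      (c - ε) * R * Real.log R ≤ ∑ z ∈ S, (analyticOrderNatAt f z : ℝ)) (ε : ℝ) (hε : 0 < ε) :
    ∃ R₀ : ℝ, 2 ≤ R₀ ∧ ∀ R : ℝ, R₀ ≤ R → ∀ S : Finset ℂ, (∀ w, f w = 0 → ‖w‖ ≤ R → w ∈ S) →
      (c - ε) * R * Real.log R ≤ ∑ w ∈ S, (analyticOrderNatAt f w : ℝ) * Real.posLog (R / ‖w‖) := by
  rcases le_or_gt c ε with hce | hce
  · refine ⟨2, le_rfl, fun R hR S _ => ?_⟩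
    have h1 : 0 ≤ Real.log R := Real.log_nonneg (by linarith)
    have h2 : (c - ε) * R * Real.log R ≤ 0 := by
      rw [mul_assoc]
      exact mul_nonpos_of_nonpos_of_nonneg (by linarith) (mul_nonneg (by linarith) h1)
    exact h2.trans (Finset.sum_nonneg fun w _ => mul_nonneg (Nat.cast_nonneg _) Real.posLog_nonneg)
  set δ : ℝ := ε / 6 with hδ
  have hδ0 : 0 < δ := by positivity
  have hδ1 : δ < 1 / 6 := by rw [hδ]; linarith
  set q : ℝ := 1 + δ with hq
  have hq1 : 1 < q := by linarith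
  have hq0 : 0 < q := by linarith
  have hqi : 1 / q < 1 := by rw [div_lt_one hq0]; exact hq1
  obtain ⟨k, hk⟩ := exists_pow_lt_of_lt_one hδ0 hqi
  rw [div_pow, one_pow] at hk
  obtain ⟨R₁, hR₁, hR₁'⟩ := hlow (ε / 2) (by positivity)
  have hlq : 0 < Real.log q := Real.log_pos hq1
  refine ⟨max (R₁ * q ^ k) (Real.exp (k * Real.log q / δ)), ?_, fun R hR S hS => ?_⟩
  · refine le_trans ?_ (le_max_left _ _)
    have : (1 : ℝ) ≤ q ^ k := one_le_pow₀ hq1.le
    nlinarith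
  have hRa : R₁ * q ^ k ≤ R := (le_max_left _ _).trans hR
  have hRb : Real.exp (k * Real.log q / δ) ≤ R := (le_max_right _ _).trans hR
  have hqk : (1 : ℝ) ≤ q ^ k := one_le_pow₀ hq1.le
  have hR1 : 2 ≤ R := by nlinarith
  have hR0 : 0 < R := by linarith
  have hlogR : 0 < Real.log R := Real.log_pos (by linarith)
  have hl : k * Real.log q ≤ δ * Real.log R := by
    have := (Real.le_log_iff_exp_le hR0).2 hRb
    rw [div_le_iff₀ hδ0] at this
    linarith
  -- levels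
  have hlev : ∀ j ∈ Finset.range k, (c - ε / 2) * (1 - δ) * Real.log R * R * (1 / q ^ (j + 1)) ≤
      ∑ w ∈ S, (if ‖w‖ ≤ R / q ^ (j + 1) then (analyticOrderNatAt f w : ℝ) else 0) := by
    intro j hj
    have hj : j + 1 ≤ k := Finset.mem_range.1 hj
    have hp : (0 : ℝ) < q ^ (j + 1) := by positivity
    have hpk : q ^ (j + 1) ≤ q ^ k := pow_le_pow_right₀ hq1.le hj
    have hRj : R₁ ≤ R / q ^ (j + 1) := by
      rw [le_div_iff₀ hp]
      nlinarith
    obtain ⟨Sj, hSj, hSj'⟩ := hR₁' _ hRj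
    have hsub : Sj ⊆ S.filter (fun w => ‖w‖ ≤ R / q ^ (j + 1)) := by
      intro w hw
      obtain ⟨h1, h2⟩ := hSj w hw
      refine Finset.mem_filter.2 ⟨hS w h1 (h2.trans ?_), h2⟩
      exact div_le_self hR0.le (one_le_pow₀ hq1.le)
    rw [← Finset.sum_filter]
    refine le_trans ?_ (hSj'.trans (Finset.sum_le_sum_of_subset_of_nonneg hsub fun _ _ _ => Nat.cast_nonneg _))
    have hlj : (1 - δ) * Real.log R ≤ Real.log (R / q ^ (j + 1)) := by
      rw [Real.log_div hR0.ne' hp.ne', Real.log_pow]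
      have : ((j + 1 : ℕ) : ℝ) * Real.log q ≤ k * Real.log q :=
        mul_le_mul_of_nonneg_right (by exact_mod_cast hj) hlq.le
      linarith
    have h1 : 0 ≤ (c - ε / 2) * (R / q ^ (j + 1)) := mul_nonneg (by linarith) (by positivity)
    calc (c - ε / 2) * (1 - δ) * Real.log R * R * (1 / q ^ (j + 1)) =
        (c - ε / 2) * (R / q ^ (j + 1)) * ((1 - δ) * Real.log R) := by ring
      _ ≤ _ := mul_le_mul_of_nonneg_left hlj h1
  -- the sum
  have hm : ∀ w ∈ S, ∑ j ∈ Finset.range k, Real.log q * (if ‖w‖ ≤ R / q ^ (j + 1) then (analyticOrderNatAt f w : ℝ) else 0) ≤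
      (analyticOrderNatAt f w : ℝ) * Real.posLog (R / ‖w‖) := by
    intro w _
    by_cases hw : w = 0
    · have hz : analyticOrderNatAt f w = 0 := by
        rw [hw]
        unfold analyticOrderNatAt
        rw [(hd.analyticAt 0).analyticOrderAt_eq_zero.2 h0]
        rfl
      rw [hz]
      simp
    have h1 := lev (R := R) hq1 (norm_pos_iff.2 hw) k
    have h2 := mul_le_mul_of_nonneg_left h1 (Nat.cast_nonneg (α := ℝ) (analyticOrderNatAt f w))
    refine le_trans (le_of_eq ?_) h2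
    rw [Finset.mul_sum]
    refine Finset.sum_congr rfl fun j _ => ?_
    split_ifs <;> ring
  have hsum := Finset.sum_le_sum hm
  rw [Finset.sum_comm] at hsum
  refine le_trans ?_ hsum
  have h2 : ∑ j ∈ Finset.range k, Real.log q * ((c - ε / 2) * (1 - δ) * Real.log R * R * (1 / q ^ (j + 1))) ≤
      ∑ j ∈ Finset.range k, ∑ w ∈ S, Real.log q * (if ‖w‖ ≤ R / q ^ (j + 1) then (analyticOrderNatAt f w : ℝ) else 0) := by
    refine Finset.sum_le_sum fun j hj => ?_
    rw [← Finset.mul_sum]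
    exact mul_le_mul_of_nonneg_left (hlev j hj) hlq.le
  refine le_trans ?_ h2
  rw [← Finset.mul_sum, ← Finset.mul_sum]
  set G := ∑ j ∈ Finset.range k, 1 / q ^ (j + 1) with hG
  have hgeo := geo hq1 k
  rw [← hG] at hgeo
  have hG0 : 0 ≤ G := Finset.sum_nonneg fun j _ => by positivity
  have hlq2 : 1 - q⁻¹ ≤ Real.log q := Real.one_sub_inv_le_log_of_pos hq0
  have h3 : (1 - δ) * (1 - δ) ≤ Real.log q * G := by
    have h4 : (1 - q⁻¹) * G ≤ Real.log q * G := mul_le_mul_of_nonneg_right hlq2 hG0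
    have h5 : (1 - q⁻¹) * G = q⁻¹ * (G * (q - 1)) := by field_simp
    have h6 : 1 - δ ≤ q⁻¹ := by
      rw [← one_div, le_div_iff₀ hq0, hq]
      nlinarith
    have h7 : 1 - δ ≤ G * (q - 1) := by rw [hgeo]; linarith
    have h8 : (1 - δ) * (1 - δ) ≤ q⁻¹ * (G * (q - 1)) :=
      mul_le_mul h6 h7 (by linarith) (by positivity)
    linarith
  have h9 : c - ε ≤ (c - ε / 2) * (1 - δ) * ((1 - δ) * (1 - δ)) := by
    have h10 : 1 - ε / 2 ≤ (1 - δ) * ((1 - δ) * (1 - δ)) := by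
      rw [hδ]; nlinarith [sq_nonneg (ε / 6), mul_nonneg hδ0.le (sq_nonneg (ε / 6))]
    have h11 : c - ε ≤ (c - ε / 2) * (1 - ε / 2) := by nlinarith
    have h12 : (c - ε / 2) * (1 - ε / 2) ≤ (c - ε / 2) * ((1 - δ) * ((1 - δ) * (1 - δ))) :=
      mul_le_mul_of_nonneg_left h10 (by linarith)
    linarith
  have h13 : (c - ε / 2) * (1 - δ) * ((1 - δ) * (1 - δ)) ≤ (c - ε / 2) * (1 - δ) * (Real.log q * G) :=
    mul_le_mul_of_nonneg_left h3 (mul_nonneg (by linarith) (by linarith))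
  have h14 : 0 ≤ R * Real.log R := by positivity
  calc (c - ε) * R * Real.log R = (c - ε) * (R * Real.log R) := by ring
    _ ≤ ((c - ε / 2) * (1 - δ) * (Real.log q * G)) * (R * Real.log R) :=
        mul_le_mul_of_nonneg_right (h9.trans h13) h14
    _ = _ := by ring

theorem up_bound (hJ : S_JN) {f : ℂ → ℂ} {c : ℝ} (hc0 : 0 ≤ c) (hc1 : c ≤ 1) (hd : Differentiable ℂ f) (h0 : f 0 ≠ 0)
    (hlow : ∀ ε : ℝ, 0 < ε → ∃ R₀ : ℝ, 2 ≤ R₀ ∧ ∀ R : ℝ, R₀ ≤ R → ∃ S : Finset ℂ, (∀ z ∈ S, f z = 0 ∧ ‖z‖ ≤ R) ∧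
      (c - ε) * R * Real.log R ≤ ∑ z ∈ S, (analyticOrderNatAt f z : ℝ))
    (hcir : ∀ ε : ℝ, 0 < ε → ∃ R₀ : ℝ, 2 ≤ R₀ ∧ ∀ R : ℝ, R₀ ≤ R →
      Real.circleAverage (fun z => Real.log ‖f z‖) 0 R ≤ (c + ε) * R * Real.log R)
    (ε : ℝ) (hε : 0 < ε) :
    ∃ R₀ : ℝ, 2 ≤ R₀ ∧ ∀ R : ℝ, R₀ ≤ R → ∀ S : Finset ℂ, (∀ z ∈ S, f z = 0 ∧ ‖z‖ ≤ R) →
      ∑ z ∈ S, (analyticOrderNatAt f z : ℝ) ≤ (c + ε) * R * Real.log R := by
  set h : ℝ := min (ε / 4) 1 with hh
  have hh0 : 0 < h := lt_min (by positivity) one_pos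
  have hh1 : h ≤ ε / 4 := min_le_left _ _
  set q : ℝ := 1 + h with hq
  have hq1 : 1 < q := by linarith
  have hq0 : 0 < q := by linarith
  set l : ℝ := Real.log q with hl
  have hl0 : 0 < l := Real.log_pos hq1
  set ε₁ : ℝ := ε / 4 * l / (q + 1) with hε₁
  have hε₁0 : 0 < ε₁ := by positivity
  obtain ⟨R₁, hR₁, h1⟩ := low_bound hc1 hd h0 hlow ε₁ hε₁0
  obtain ⟨R₂, hR₂, h2⟩ := hcir ε₁ hε₁0
  set A : ℝ := |Real.log ‖f 0‖| with hA
  set B : ℝ := 4 / (ε * l) * ((c + ε₁) * q * l + A) with hB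
  refine ⟨max (max R₁ R₂) (Real.exp B), hR₁.trans ((le_max_left _ _).trans (le_max_left _ _)), fun R hR S hS => ?_⟩
  have hRa : R₁ ≤ R := ((le_max_left _ _).trans (le_max_left _ _)).trans hR
  have hRb : R₂ ≤ R := ((le_max_right _ _).trans (le_max_left _ _)).trans hR
  have hRc : Real.exp B ≤ R := (le_max_right _ _).trans hR
  have hR2 : 2 ≤ R := hR₁.trans hRa
  have hR0 : 0 < R := by linarith
  have hlogR : 0 < Real.log R := Real.log_pos (by linarith)
  have hBR : B ≤ Real.log R := (Real.le_log_iff_exp_le hR0).2 hRc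
  have hqR : R ≤ q * R := by nlinarith
  set Z : Finset ℂ := (fin_zeros hd ⟨0, h0⟩ (q * R)).toFinset with hZ
  have hZm : ∀ w, w ∈ Z ↔ f w = 0 ∧ ‖w‖ ≤ q * R := fun w => by rw [hZ, Set.Finite.mem_toFinset]; rfl
  have hJ1 := hJ f 0 (q * R) Z hd (by positivity) h0 (fun w hw hw' => (hZm w).2 ⟨hw, by
    rw [sub_zero] at hw'; exact hw'.le⟩)
  have hJ2 := hJ f 0 R Z hd hR0 h0 (fun w hw hw' => (hZm w).2 ⟨hw, by
    rw [sub_zero] at hw'; exact hw'.le.trans hqR⟩)
  simp only [sub_zero] at hJ1 hJ2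
  have hL := h1 R hRa Z (fun w hw hw' => (hZm w).2 ⟨hw, hw'.trans hqR⟩)
  have hU := h2 (q * R) (hRb.trans hqR)
  have hdiff : (∑ z ∈ S, (analyticOrderNatAt f z : ℝ)) * l ≤
      ∑ w ∈ Z, (analyticOrderNatAt f w : ℝ) * Real.posLog (q * R / ‖w‖) -
      ∑ w ∈ Z, (analyticOrderNatAt f w : ℝ) * Real.posLog (R / ‖w‖) := by
    rw [← Finset.sum_sub_distrib, Finset.sum_mul]
    have hSZ : S ⊆ Z := fun w hw => (hZm w).2 ⟨(hS w hw).1, (hS w hw).2.trans hqR⟩
    refine le_trans (Finset.sum_le_sum fun w hw => ?_) (Finset.sum_le_sum_of_subset_of_nonneg hSZ fun w _ _ => ?_)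
    · rw [← mul_sub]
      refine mul_le_mul_of_nonneg_left ?_ (Nat.cast_nonneg _)
      obtain ⟨hw1, hw2⟩ := hS w hw
      have hw0 : w ≠ 0 := fun e => h0 (by rw [e] at hw1; exact hw1)
      have hwn : 0 < ‖w‖ := norm_pos_iff.2 hw0
      have e1 : Real.posLog (R / ‖w‖) = Real.log (R / ‖w‖) :=
        max_eq_right (Real.log_nonneg ((one_le_div hwn).2 hw2))
      have e2 : Real.log (q * R / ‖w‖) = l + Real.log (R / ‖w‖) := by
        rw [mul_div_assoc, Real.log_mul hq0.ne' (by positivity)]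
      have e3 : Real.log (q * R / ‖w‖) ≤ Real.posLog (q * R / ‖w‖) := le_max_right _ _
      rw [e1]
      linarith
    · rw [← mul_sub]
      refine mul_nonneg (Nat.cast_nonneg _) (sub_nonneg.2 ?_)
      refine Real.posLog_le_posLog (by positivity) ?_
      exact div_le_div_of_nonneg_right hqR (norm_nonneg w)
  have hlog : Real.log (q * R) = l + Real.log R := Real.log_mul hq0.ne' hR0.ne'
  rw [hlog] at hU
  have hA1 : -Real.log ‖f 0‖ ≤ A := neg_le_abs _
  have hX : (∑ z ∈ S, (analyticOrderNatAt f z : ℝ)) * l ≤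
      (c + ε₁) * (q * R) * (l + Real.log R) + A - (c - ε₁) * R * Real.log R := by linarith
  have hq2 : q - 1 ≤ q * l := by
    have := Real.one_sub_inv_le_log_of_pos hq0
    have h3 : q * (1 - q⁻¹) ≤ q * l := mul_le_mul_of_nonneg_left this hq0.le
    have h4 : q * (1 - q⁻¹) = q - 1 := by field_simp
    linarith
  have hB1 : (c + ε₁) * q * l + A ≤ ε / 4 * l * Real.log R := by
    have h3 : ε / 4 * l * B ≤ ε / 4 * l * Real.log R := mul_le_mul_of_nonneg_left hBR (by positivity)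
    have h4 : ε / 4 * l * B = (c + ε₁) * q * l + A := by rw [hB]; field_simp
    linarith
  have hA0 : 0 ≤ A := abs_nonneg _
  have hB2 : (c + ε₁) * q * l * R + A ≤ ε / 4 * l * (R * Real.log R) := by
    have h3 : ((c + ε₁) * q * l + A) * R ≤ ε / 4 * l * Real.log R * R := mul_le_mul_of_nonneg_right hB1 hR0.le
    have h4 : A ≤ A * R := by nlinarith
    nlinarith
  have hC1 : c * (q - 1) ≤ (c + ε / 4) * l := by
    have h3 : c * (q - 1) ≤ c * (q * l) := mul_le_mul_of_nonneg_left hq2 hc0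
    have h4 : c * h ≤ ε / 4 := by nlinarith
    have h5 : c * h * l ≤ ε / 4 * l := mul_le_mul_of_nonneg_right h4 hl0.le
    rw [hq] at h3 ⊢
    nlinarith
  have hC2 : ε₁ * (q + 1) = ε / 4 * l := by rw [hε₁]; field_simp
  have hRL : 0 ≤ R * Real.log R := by positivity
  have hfin : (∑ z ∈ S, (analyticOrderNatAt f z : ℝ)) * l ≤ ((c + ε) * R * Real.log R) * l := by
    have e : (c + ε₁) * (q * R) * (l + Real.log R) + A - (c - ε₁) * R * Real.log R =
        (c * (q - 1) + ε₁ * (q + 1)) * (R * Real.log R) + ((c + ε₁) * q * l * R + A) := by ring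
    rw [e, hC2] at hX
    have h3 : (c * (q - 1) + ε / 4 * l) * (R * Real.log R) ≤ ((c + ε / 4) * l + ε / 4 * l) * (R * Real.log R) :=
      mul_le_mul_of_nonneg_right (by linarith) hRL
    have h4 : 0 ≤ ε / 4 * l * (R * Real.log R) := by positivity
    nlinarith
  exact le_of_mul_le_mul_right hfin hl0

theorem t_TAU : J_TAU := by
  intro hJ hC hL hG b ε hb hε
  obtain ⟨R₀, -, -, -, h0, hd⟩ := hG b hb
  have e : (b / 2 - -(b / 2)) / (2 * Real.pi * b) = 1 / (2 * Real.pi) := by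
    have := Real.pi_pos
    field_simp
    ring
  refine up_bound hJ (by positivity) ?_ hd h0 (fun ε hε => ?_) (fun ε hε => hC b ε hb hε) ε hε
  · rw [div_le_one (by positivity)]
    have := Real.pi_gt_three
    linarith
  · obtain ⟨R₁, hR₁, h⟩ := hL b (-(b / 2)) (b / 2) ε hb le_rfl (by linarith) le_rfl hε
    refine ⟨R₁, hR₁, fun R hR => ?_⟩
    obtain ⟨S, hS, hS'⟩ := h R hR
    refine ⟨S, fun z hz => ⟨(hS z hz).1, (hS z hz).2.1⟩, ?_⟩
    rw [e] at hS'
    exact hS'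

end Pool.Agent.J4H8.EQ

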